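import Mathlib
import Pool.Agent.Q217.LM.Step

/-!
# Quotients of complete locally minimal abelian groups by compact subgroups are locally minimal
-/

set_option autoImplicit false

namespace Pool.Agent.Results.MP_27feec_al.CompactQuotients

open Q217.LM

/-- Let `G` be a complete Hausdorff locally minimal abelian topological group and let `K` be a
compact subgroup of `G`. Then `G ⧸ K` is a Hausdorff topological group, and it is locally
minimal. -/
theorem result :
    ∀ (G : Type) [AddCommGroup G] [UniformSpace G] [IsUniformAddGroup G] [T2Space G]
      [CompleteSpace G], LocallyMinimal G → ∀ K : AddSubgroup G, IsCompact (K : Set G) →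
        IsTopologicalAddGroup (G ⧸ K) ∧ T2Space (G ⧸ K) ∧ LocallyMinimal (G ⧸ K) := by
  intro G _ _ _ _ _ hG K hK
  have : IsClosed (K : Set G) := hK.isClosed
  exact ⟨inferInstance, inferInstance, main hG K hK⟩

end Pool.Agent.Results.MP_27feec_al.CompactQuotients
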